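import Mathlib

set_option autoImplicit false

namespace Pool.Agent.Results.MP_c9edc3_al.NotResiduallyFinite

/-- Binary relations on `S` under composition (first the left factor, then the right one).
The symmetric inverse monoid is the submonoid of graphs of one-to-one maps between subsets. -/
@[ext] structure Rel (S : Type) where
  r : S → S → Prop

instance (S : Type) : Monoid (Rel S) where
  mul f g := ⟨fun x z => ∃ y, f.r x y ∧ g.r y z⟩
  one := ⟨fun x y => x = y⟩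
  mul_assoc f g h := by
    ext x w
    exact ⟨fun ⟨z, ⟨y, h1, h2⟩, h3⟩ => ⟨y, h1, z, h2, h3⟩,
      fun ⟨y, h1, z, h2, h3⟩ => ⟨z, ⟨y, h1, h2⟩, h3⟩⟩
  one_mul f := by
    ext x y
    exact ⟨fun ⟨_, rfl, h⟩ => h, fun h => ⟨x, rfl, h⟩⟩
  mul_one f := by
    ext x y
    exact ⟨fun ⟨_, h, rfl⟩ => h, fun h => ⟨y, h, rfl⟩⟩

/-- The graph of `φ_{g,h} : D_{g,h} → S`, `a ↦ h a g`. -/
def phi {S : Type} [Monoid S] (g h : S) : Rel S :=
  ⟨fun a b => g * h * a = a ∧ a * (g * h) = a ∧ b = h * a * g⟩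

/-- The monoid generated by all `φ_{g,h}`. -/
def Inn (S : Type) [Monoid S] : Submonoid (Rel S) :=
  Submonoid.closure {f | ∃ g h : S, f = phi g h}

/-- Residual finiteness of a semigroup. -/
def ResFinite (M : Type) [Semigroup M] : Prop :=
  ∀ x y : M, x ≠ y → ∃ (F : Type) (_ : Semigroup F) (_ : Finite F) (f : M →ₙ* F), f x ≠ f y

theorem mul_r {S : Type} (f g : Rel S) (x z : S) : (f * g).r x z ↔ ∃ y, f.r x y ∧ g.r y z :=
  Iff.rfl

/-- shifts (`true`) and constant maps (`false`) of an additive group -/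
@[ext] structure T (A : Type) where
  s : Bool
  n : A

instance (A : Type) [AddCommGroup A] : Monoid (T A) where
  mul x y := if x.s then ⟨y.s, x.n + y.n⟩ else x
  one := ⟨true, 0⟩
  mul_assoc := by
    rintro ⟨a, x⟩ ⟨b, y⟩ ⟨c, z⟩
    cases a <;> cases b <;> first | rfl | exact T.ext rfl (add_assoc _ _ _)
  one_mul := by
    rintro ⟨a, x⟩
    exact T.ext rfl (zero_add _)
  mul_one := by
    rintro ⟨a, x⟩
    cases a
    · rfl
    · exact T.ext rfl (add_zero _)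

theorem tmul {A : Type} [AddCommGroup A] (x : A) (y : T A) :
    (⟨true, x⟩ : T A) * y = ⟨y.s, x + y.n⟩ := rfl
theorem fmul {A : Type} [AddCommGroup A] (x : A) (y : T A) :
    (⟨false, x⟩ : T A) * y = ⟨false, x⟩ := rfl

def red (n : ℕ) : T ℤ →ₙ* T (ZMod n) where
  toFun x := ⟨x.s, x.n⟩
  map_mul' := by
    rintro ⟨a, x⟩ ⟨b, y⟩
    cases a
    · rfl
    · simp [tmul]

def τ (k : ℤ) : Inn (T ℤ) := ⟨phi ⟨true, -k⟩ ⟨true, k⟩, Submonoid.subset_closure ⟨_, _, rfl⟩⟩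
def ε (k : ℤ) : Inn (T ℤ) := ⟨phi ⟨false, k⟩ ⟨false, k⟩, Submonoid.subset_closure ⟨_, _, rfl⟩⟩

theorem τ_r (k : ℤ) (a b : T ℤ) :
    (τ k).1.r a b ↔ b = if a.s then a else ⟨false, k + a.n⟩ := by
  obtain ⟨s, x⟩ := a
  cases s <;> simp [τ, phi, tmul, fmul]

theorem ε_r (k : ℤ) (a b : T ℤ) : (ε k).1.r a b ↔ a = ⟨false, k⟩ ∧ b = ⟨false, k⟩ := by
  obtain ⟨s, x⟩ := a
  cases s <;> simp [ε, phi, tmul, fmul, eq_comm]

theorem τ_add (k l : ℤ) : τ k * τ l = τ (k + l) := by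
  apply Subtype.ext
  ext ⟨s, x⟩ b
  rw [Submonoid.coe_mul, mul_r]
  cases s <;> simp [τ_r, add_assoc, add_left_comm]

theorem τ_zero : τ 0 = 1 := by
  apply Subtype.ext
  ext ⟨s, x⟩ b
  rw [τ_r]
  change _ ↔ _ = b
  cases s <;> simp [eq_comm]

theorem ε_conj (k : ℤ) : τ (-k) * ε 0 * τ k = ε k := by
  apply Subtype.ext
  ext ⟨s, x⟩ b
  rw [Submonoid.coe_mul, Submonoid.coe_mul]
  cases s
  · simp [mul_r, τ_r, ε_r, neg_add_eq_zero, eq_comm (a := k)]
  · simp [mul_r, τ_r, ε_r]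

theorem ε_mul (k : ℤ) (hk : k ≠ 0) : ε 0 * ε k = ε 0 * ε 1 := by
  apply Subtype.ext
  ext a b
  rw [Submonoid.coe_mul, Submonoid.coe_mul]
  simp [mul_r, ε_r, hk.symm]

theorem ε_sq : ε 0 * ε 0 = ε 0 := by
  apply Subtype.ext
  ext a b
  rw [Submonoid.coe_mul]
  simp [mul_r, ε_r]

/-- A finitely generated residually finite monoid `S` such that `Inn S` is not residually
finite. -/
theorem result : ∃ (S : Type) (_ : Monoid S),
    (∃ X : Finset S, Subsemigroup.closure (X : Set S) = ⊤) ∧ ResFinite S ∧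
    ¬ ResFinite (Inn S) := by
  classical
  refine ⟨T ℤ, inferInstance, ⟨{⟨true, 1⟩, ⟨true, -1⟩, ⟨false, 0⟩}, ?_⟩, ?_, ?_⟩
  · rw [eq_top_iff]
    set C := Subsemigroup.closure
      ((({⟨true, 1⟩, ⟨true, -1⟩, ⟨false, 0⟩} : Finset (T ℤ)) : Set (T ℤ)))
    have h1 : (⟨true, 1⟩ : T ℤ) ∈ C := Subsemigroup.subset_closure (by simp)
    have h2 : (⟨true, -1⟩ : T ℤ) ∈ C := Subsemigroup.subset_closure (by simp)
    have h3 : (⟨false, 0⟩ : T ℤ) ∈ C := Subsemigroup.subset_closure (by simp)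
    have h4 : ∀ (s : Bool), (⟨s, 0⟩ : T ℤ) ∈ C → ∀ k : ℤ, (⟨s, k⟩ : T ℤ) ∈ C := by
      intro s h0 k
      induction k using Int.induction_on with
      | zero => exact h0
      | succ k ih => simpa [tmul, add_comm] using C.mul_mem h1 ih
      | pred k ih => simpa [tmul, add_comm, sub_eq_add_neg] using C.mul_mem h2 ih
    rintro ⟨s, k⟩ -
    cases s
    · exact h4 _ h3 k
    · exact h4 _ (by simpa [tmul] using C.mul_mem h1 h2) k
  · rintro ⟨a, x⟩ ⟨b, y⟩ hne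
    have : Finite (T (ZMod ((x - y).natAbs + 1))) :=
      Finite.of_injective (fun t => (t.s, t.n)) (by rintro ⟨_, _⟩ ⟨_, _⟩ h; simpa using h)
    refine ⟨T (ZMod ((x - y).natAbs + 1)), inferInstance, this, red _, fun h => hne ?_⟩
    have h1 : a = b := congrArg T.s h
    have h2 : ((x : ℤ) : ZMod ((x - y).natAbs + 1)) = (y : ℤ) := congrArg T.n h
    rw [ZMod.intCast_eq_intCast_iff_dvd_sub] at h2
    have h3 := Int.eq_zero_of_abs_lt_dvd h2 (by
      rw [abs_sub_comm, Int.abs_eq_natAbs]; push_cast; omega)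
    rw [h1, show x = y by omega]
  · intro h
    obtain ⟨F, _, _, f, hf⟩ := h (ε 0) (ε 0 * ε 1) (by
      intro h0
      have h1 : (ε 0 * ε 1).1.r ⟨false, 0⟩ ⟨false, 0⟩ := by rw [← h0, ε_r]; simp
      rw [Submonoid.coe_mul] at h1
      simp [mul_r, ε_r] at h1)
    obtain ⟨i, j, hij, e⟩ := Finite.exists_ne_map_eq_of_infinite (fun k : ℤ => f (τ k))
    have e1 : f (τ (i - j)) = f 1 := by
      rw [sub_eq_add_neg, ← τ_add, map_mul, e, ← map_mul, τ_add, add_neg_cancel, τ_zero]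
    have e2 : f (τ (-(i - j))) = f 1 := by
      rw [neg_sub, sub_eq_add_neg, ← τ_add, map_mul, ← e, ← map_mul, τ_add, add_neg_cancel, τ_zero]
    apply hf
    rw [← ε_mul (i - j) (sub_ne_zero.2 hij), ← ε_conj (i - j), map_mul, map_mul, map_mul, e1, e2,
      ← map_mul, ← map_mul, ← map_mul, one_mul, mul_one, ε_sq]

end Pool.Agent.Results.MP_c9edc3_al.NotResiduallyFinite
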